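import Pool.Agent.Y3.GD.Main

/-!
# The generalized Hodge conjecture for 100 percent of the cohomology of Fermat varieties

Let `X` be the Fermat variety of degree `m` and dimension `n`. The primitive part of `H^n(X, ℂ)` is
the sum of the lines `V(a)`, one for each character `a` of `(ZMod m) ^ (n + 2)` with all entries
nonzero and with sum zero; `V(a)` has Hodge type `(p, n - p)` with `p + 1` equal to the sum of the
fractional parts of the `a i / m`, and Galois conjugation permutes the lines by multiplication of
`a` by units. So the largest rational Hodge substructure of level at most `n - 2 * c` of the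
primitive part is the sum of the lines `V(a)` with `HasConiveau m n c a`.

The locus in `X` where `∑ x i ^ m = 0` over each block of a partition of the indices into `c + 1`
blocks has codimension `c`, and if each block sum of `a` is zero then `V(a)` is supported on it
(inductive structure of Fermat varieties of Shioda and Katsura).

The theorem says that, for each `n` and `c`, the characters of the second kind are a proportion
`1 - O(1 / m)` of the characters of the first kind.
-/

namespace Pool.Agent.Results.MP_1c689d_ag.FermatConiveau

/-- `a` indexes a line of the primitive middle cohomology of the Fermat variety of degree `m` and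
dimension `n`: all entries are nonzero and the sum is zero. -/
def IsCharacter (m n : ℕ) (a : Fin (n + 2) → ZMod m) : Prop :=
  (∀ i, a i ≠ 0) ∧ ∑ i, a i = 0

/-- The rational Hodge structure generated by the line `V(a)` has level at most `n - 2 * c`: for
every unit `t`, the sum of the fractional parts of the `t * a i / m` is between `c + 1` and
`n + 2 - (c + 1)`. -/
def HasConiveau (m n c : ℕ) (a : Fin (n + 2) → ZMod m) : Prop :=
  ∀ t : (ZMod m)ˣ, (c + 1) * m ≤ ∑ i, ((t : ZMod m) * a i).val ∧
    ∑ i, ((t : ZMod m) * a i).val + (c + 1) * m ≤ (n + 2) * m

/-- The indices can be partitioned into `c + 1` nonempty blocks such that the sum of `a` over each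
block is zero. -/
def Splits (m n c : ℕ) (a : Fin (n + 2) → ZMod m) : Prop :=
  ∃ β : Fin (n + 2) → Fin (c + 1), Function.Surjective β ∧
    ∀ j, ∑ i ∈ Finset.univ.filter (fun i => β i = j), a i = 0

theorem result (n c : ℕ) (hc : 2 * c ≤ n) : ∃ C : ℕ, ∀ m : ℕ, 3 ≤ m →
    (∀ a : Fin (n + 2) → ZMod m, IsCharacter m n a → Splits m n c a → HasConiveau m n c a) ∧
    {a | IsCharacter m n a ∧ HasConiveau m n c a ∧ ¬ Splits m n c a}.ncard ≤ C * m ^ (n - c) ∧
    m ^ (n + 1 - c) ≤ C * {a | IsCharacter m n a ∧ Splits m n c a}.ncard ∧
    m * {a | IsCharacter m n a ∧ HasConiveau m n c a ∧ ¬ Splits m n c a}.ncard ≤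
      C * {a | IsCharacter m n a ∧ Splits m n c a}.ncard :=
  Pool.Agent.Y3.GD.coniveau n c hc

end Pool.Agent.Results.MP_1c689d_ag.FermatConiveau
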