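import Mathlib
import Pool.Agent.Y68.MP.E

/-!
# Varieties dominated by a product of an abelian variety with many independent periods and a variety

Let `A = ℂ ^ g / (ℤ ^ g + Z ℤ ^ g)` be the principally polarized abelian variety with period matrix
`Z` and let `Y` be any smooth projective variety, for instance a point or a surface. Suppose that
more than `g (g - 1) / 2` of the entries of `Z` (the normalized periods of `A`) are algebraically
independent over a field `K` which contains the periods of `Y`, the entries of the Hodge operator of
the cohomology of `Y`.

1. Suppose that all sub-Hodge structures of `H^e(Y)` without part of type `(e, 0)`, for all `e`,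
   vanish on dense open subsets of `Y` (this is true for points, curves and surfaces). Then all
   sub-Hodge structures of `H^i(A ^ n × Y)` without part of type `(i, 0)`, for all `i` and `n`, vanish
   on dense open subsets: they are contained in the span of the products of a divisor class on
   `A ^ n` and a class, and of the products of a class and one of these classes on `Y`.

   So the problem has a positive answer, in all degrees, for all smooth projective varieties `X`
   which are dominated by some `A ^ n × Y`, for instance the resolutions of the quotients of
   `A ^ n × Y` by finite groups: if `h ^ (i, 0)` of `X` is `0` then the image of `H^i(X)` in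
   the cohomology of a blow up of `A ^ n × Y` is a sub-Hodge structure without part of type `(i, 0)`.

2. For all `n` the generalized Hodge conjecture for `Y` implies the generalized Hodge conjecture
   for `A ^ n × Y`, in all degrees and of all levels.

The abelian variety is not a very general member of a family, the hypothesis is on the periods of
one abelian variety; it need not be simple and nothing is supposed about its endomorphisms or its
Hodge group. The number `g (g - 1) / 2` is the number of independent periods of the product of an
elliptic curve with complex multiplication and a very general abelian variety, where `Y` can have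
Hodge classes on `A × Y` in common with the elliptic curve.

The proof: dual to the independent periods there are derivations of the field of complex numbers over
`K`. The abelian variety is isogenous to a product of simple abelian varieties, whose periods
generate the field of the periods of `A`, and the derivatives of the period matrices of the factors
belong to the complexified Lie algebras of their Hodge groups and bound them from below: they are so
large that they are symplectic, and all factors are moved by a derivation which kills the Hodge
operator of `Y`. So the Hodge structures of `A` and of `Y` are independent.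
-/

namespace Pool.Agent.Results.MP_1c689d_ag.IndependentPeriodsTimesVariety

open Matrix Pool.Agent.H204R3.CM Pool.Agent.W437.HC Pool.Agent.W437.HD Pool.Agent.W546.GHC
  Pool.Agent.TH131.GHC

/-- Every sub-Hodge structure of `H^e(Y)` without part of type `(e, 0)`, that is of level at most
`e - 2`, is contained in `N` (the space of the classes which vanish on dense open subsets). -/
def ConiveauOne {v : ℕ} (V : Coh v) (N : Submodule ℚ (Fin v → ℚ)) : Prop :=
  ∀ (e : ℕ) (F : Submodule ℚ (Fin v → ℚ)),
    (∀ x ∈ F, ∀ b, x b ≠ 0 → V.dg b = e) → SubZ V ((e : ℤ) - 2) F → F ≤ N

/-- Every sub-Hodge structure of `H^i(A × Y)` without part of type `(i, 0)`, that is of level at most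
`i - 2`, is contained in the span of the products `f ⊗ x` where `f` is a product of a divisor class
and another class on `A` or `x` is in `N`. -/
def ConiveauOneProduct {W T : Type} [AddCommGroup W] [Module ℚ W] [AddCommGroup T] [Module ℂ T]
    (per : W →+ T) {v : ℕ} (V : Coh v) (N : Submodule ℚ (Fin v → ℚ)) : Prop :=
  ∀ (i : ℕ) (S : Submodule ℚ (HAZ W v)), SubHSIn per V i 1 S →
    S ≤ Submodule.span ℚ {t | ∃ (k : ℕ) (f : W [⋀^Fin k]→ₗ[ℚ] ℚ) (x : Fin v → ℚ),
      t = cross f x ∧ ((∃ r : ℕ, 1 ≤ r ∧ f ∈ divisorProducts per k r) ∨ x ∈ N)}

/-- Let more than `g (g - 1) / 2` entries of the period matrix `Z` of the abelian variety `A` be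
algebraically independent over the field `K` and let the Hodge operator of the cohomology `V` of
`Y` have entries in `K`. If the sub-Hodge structures of the cohomology of `Y` without part of type
`(e, 0)` have coniveau one then this is also true for all products `A ^ n × Y`, and the generalized
Hodge conjecture for `Y` implies the generalized Hodge conjecture for all products `A ^ n × Y`. -/
theorem result {g D : ℕ} (Z : Matrix (Fin g) (Fin g) ℂ) (hZ : Z.transpose = Z)
    (hpos : (Z.map Complex.im).PosDef) (hD : g * (g - 1) < 2 * D) (K : Subfield ℂ)
    (s : Fin D → Fin g × Fin g) (hs : AlgebraicIndependent K fun a => Z (s a).1 (s a).2)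
    {v : ℕ} (V : Coh v) (hV : ∀ a b, V.z a b ∈ K) (n : ℕ) :
    (∀ N : Submodule ℚ (Fin v → ℚ), ConiveauOne V N → ConiveauOneProduct (perPow Z n) V N) ∧
      ∀ N : ℕ → Submodule ℚ (Fin v → ℚ), GHCZ V N → GHCProduct (perPow Z n) V N := by
  have h := (Pool.Agent.Y68.MP.main_times hZ hpos hD K s hs V hV n).2
  refine ⟨fun N hN i S hS => ?_, h⟩
  have h1 : GHCZ V fun j => if j = 0 then ⊤ else N := by
    refine ⟨if_pos rfl, fun e j F hF hF2 => ?_⟩
    rcases Nat.eq_zero_or_pos j with hj | hj
    · simp [hj]
    · simp only [hj.ne', if_false]
      refine hN e F hF fun x hx => ?_
      refine Submodule.span_mono ?_ (hF2 x hx)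
      rintro y ⟨h2, m, h3, h4⟩
      exact ⟨h2, m, h3.trans (by omega), h4⟩
  refine (h _ h1 i 1 S hS).trans ?_
  unfold divConiveau
  refine Submodule.span_mono ?_
  rintro t ⟨k, r, j', f, x, hf, hx, hj, rfl⟩
  refine ⟨k, f, x, rfl, ?_⟩
  rcases Nat.eq_zero_or_pos j' with h0 | h0
  · exact Or.inl ⟨r, by omega, hf⟩
  · simp only [h0.ne', if_false] at hx
    exact Or.inr hx

end Pool.Agent.Results.MP_1c689d_ag.IndependentPeriodsTimesVariety
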