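import Pool.Agent.Y89.TW.Evn

/-!
# Coniveau for products of a K3 surface linked with an abelian variety and Kuga-Satake varieties

Let `X` be a K3 surface (or a hyper-Kaehler variety; then only the part `V` of its motive is
considered) and `K` a Kuga-Satake variety of `X`.

* `V : HS n` (starting files) is the polarised rational Hodge structure `T(X)(1)` (or
  `H^2_prim(X)(1)`), given by the form `V.Q` and the Hodge operator `V.x`, which is `1`, `0`, `-1`
  on the pieces of type `(1,-1)`, `(0,0)`, `(-1,1)`. It is of K3 type: `trace (x^2) = 2`. We assume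
  `End V = ℚ` and `n ≢ 2` modulo `4`.
* `W : HW w` (starting files) is `H^1(K, ℚ)` with the Riemann form `W.E` and the Hodge operator
  `W.y`, which is `1/2` and `-1/2` on the two pieces. `KugaSatake V W γ c`: the rational operators
  `γ_i` make `W` a module over the Clifford algebra of the form `c V.Q`, and the Hodge structure of
  `W` is the one given by this module, as in the construction of Kuga and Satake.
* `Z : HW z` is `H^1(B, ℚ)` for an arbitrary abelian variety `B` containing `K` as a factor:
  `i : W → Z` and `p : Z → W` are the inclusion and the projection (`IsFactor`), for example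
  `B = K × A`. `Independent`: the Lie algebra `so(V)`, acting on `V`, on `H^1(K)` through the spin
  representation and as zero on the complement of `H^1(K)` in `H^1(B)`, kills all Hodge classes on
  the products `X^a × B^b` (the Hodge groups of `X` and of the complement of `K` in `B` are
  independent). By the classification of Satake and Deligne every abelian variety is isogenous to
  `A_1 × A_2`, where `A_1` is a factor of a power of `K` and `B = K × A_2` satisfies this condition;
  so a link of `X` with an arbitrary abelian variety is a link with such a variety `B`.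
  For `B = K`, that is, `i * p = 1`, no such condition is needed.

A class in a Kuenneth component `V(-1)^{⊗ a} ⊗ H^1(B)^{⊗ b}` of `H^{2a+b}(X^a × B^b)` is, by
duality, a rational form in `k = a + b` variables; we view it as a function of `k` indices of basis
vectors of `V ⊕ Z`, extended by zero. `AlgebraicClasses V Z A` lists the formal properties of the
spaces `A k` of algebraic classes of this kind. `pullback p t` is the pullback to `X^a × B^b` of a
class `t` on `X^a × K^b`; as `K` is a factor of `B`, the class `t` is algebraic if `pullback p t` is.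

`Linked V A`: some nonzero algebraic class on some `X × B^b` has exactly one variable in `V`, that
is, there is a nonzero algebraic correspondence from `T(X)` to some `H^j(B^b)`; or, more generally,
some algebraic class on some `X^a × B^b` (with an odd number of variables in `V` if `4` divides `n`)
is not killed by `so(V)` acting through the variables in `V` only. Such a correspondence exists if
the homological motive of `X` is of abelian type, for example if `X` is dominated by a product of
curves.

On the piece of type `(p,q)` of `V(-1)^{⊗ a} ⊗ H^1(K)^{⊗ b}` the Hodge operator, acting as a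
derivation, is `± (p - q) / 2`. So a rational subspace `L` is a sub-Hodge structure if its complex
span is stable under this derivation, and for `i = 2a + b = 2c + m` it is without parts of type
`(p,q)` with `p < c` or `q < c` if all the eigenvalues `μ` there have `2 μ = m, m - 2, ..., -m`
(`IsSubHodgeStructure`). For `c = 1` this says that `L` has no part of type `(i,0)`, and the problem
asks whether `L` vanishes on a dense open subset; for all `c` the generalized Hodge conjecture says
that `L` lies in `N^c H^i`.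

We prove, if `X` is linked with `B`, that every such `L` in an even number of variables in `V` is
contained in the span of the images of `H^1(K)^{⊗ m} ⊂ H^m(K^m)` under algebraic classes on
`X^a × K^b × K^m` (`images`). By the hard Lefschetz theorem on `K^m` these are images under
algebraic correspondences of the cohomology in degree `m` of an `m`-dimensional variety, so they
are supported on a closed subset of codimension `c`. If there is one nonzero algebraic class on some
`X^a × K^b` in an odd number of variables in `V`, for example a nonzero algebraic correspondence from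
`T(X)` to some `H^j(K^b)`, this holds for all `L`.

For `X × X`, `a = 2`, `b = 0`, the first statement is about all sub-Hodge structures of
`T(X) ⊗ T(X) ⊂ H^4(X × X)`. So if `X` is a K3 surface with `End T(X) = ℚ` and `rank T(X) ≢ 2` modulo
`4` which is linked with an abelian variety then the problem has a positive answer for all smooth
projective varieties `Y` which are dominated by `X × X`: if `h^{4,0}(Y) = 0` then the image of
`H^4(Y)` in the cohomology of a blow up of `X × X` is a sub-Hodge structure without part of type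
`(4,0)`; the parts of `H^4` outside of `T(X) ⊗ T(X)` vanish on dense open subsets.
-/

open Matrix

namespace Pool.Agent.Results.MP_1c689d_ag.LinkedConiveau

open Pool.Agent.W544.PG (HS HW mC)

noncomputable section

variable {n w z : ℕ}

/-- A rational matrix as a complex matrix. -/
abbrev toC {a b : ℕ} (P : Matrix (Fin a) (Fin b) ℚ) : Matrix (Fin a) (Fin b) ℂ :=
  P.map (fun q : ℚ => (q : ℂ))

/-- The operator `X`, acting as a derivation on the complex forms in `k` variables. -/
def derivation {ι : Type} [Fintype ι] {k : ℕ} (X : Matrix ι ι ℂ) (f : (Fin k → ι) → ℂ) :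
    (Fin k → ι) → ℂ :=
  fun J => ∑ j, ∑ p, X p (J j) * f (Function.update J j p)

/-- A rational form in `k` variables on `V ⊕ W` is a Hodge class: the Hodge operator `x ⊕ y`,
acting as a derivation, kills it. -/
def IsHodgeClass (V : HS n) (W : HW w) {k : ℕ} (t : (Fin k → Fin n ⊕ Fin w) → ℚ) : Prop :=
  derivation (fromBlocks V.x 0 0 W.y) (fun J => (t J : ℂ)) = 0

/-- The complex span of a space of rational forms. -/
def complexSpan {k : ℕ} (L : Submodule ℚ ((Fin k → Fin n ⊕ Fin w) → ℚ)) :
    Submodule ℂ ((Fin k → Fin n ⊕ Fin w) → ℂ) :=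
  Submodule.span ℂ {f | ∃ t ∈ L, f = fun J => (t J : ℂ)}

/-- `L` is a sub-Hodge structure of level at most `m` (and of the parity of `m`): its complex span
is stable under the Hodge operator, acting as a derivation, whose eigenvalues `μ` there satisfy
`2 μ = m, m - 2, ..., -m`. -/
structure IsSubHodgeStructure (V : HS n) (W : HW w) {k : ℕ}
    (L : Submodule ℚ ((Fin k → Fin n ⊕ Fin w) → ℚ)) (m : ℕ) : Prop where
  stable : ∀ f ∈ complexSpan L, derivation (fromBlocks V.x 0 0 W.y) f ∈ complexSpan L
  level : ∀ f ∈ complexSpan L, f ≠ 0 → ∀ μ : ℂ, derivation (fromBlocks V.x 0 0 W.y) f = μ • f →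
    ∃ j : ℕ, j ≤ m ∧ 2 * μ = (m : ℂ) - 2 * j

/-- A system `A` of spaces of rational classes on the products `X^a × B^b` which has the formal
properties of the spaces of algebraic classes. -/
structure AlgebraicClasses (V : HS n) (Z : HW z)
    (A : ∀ k : ℕ, Submodule ℚ ((Fin k → Fin n ⊕ Fin z) → ℚ)) : Prop where
  /-- algebraic classes are Hodge classes -/
  hodge : ∀ k : ℕ, ∀ t ∈ A k, IsHodgeClass V Z t
  /-- the class of a point -/
  unit : (fun _ => 1) ∈ A 0
  /-- exterior products -/
  product : ∀ (k l : ℕ) (f : (Fin k → Fin n ⊕ Fin z) → ℚ) (g : (Fin l → Fin n ⊕ Fin z) → ℚ),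
    f ∈ A k → g ∈ A l → (fun J : Fin (k + l) → Fin n ⊕ Fin z =>
      f (fun i => J (Fin.castAdd l i)) * g (fun i => J (Fin.natAdd k i))) ∈ A (k + l)
  /-- permutations of the factors -/
  permutation : ∀ (k : ℕ) (σ : Equiv.Perm (Fin k)) (f : (Fin k → Fin n ⊕ Fin z) → ℚ), f ∈ A k →
    (fun J : Fin k → Fin n ⊕ Fin z => f (fun i => J (σ i))) ∈ A k
  /-- contraction of two variables with the polarisations -/
  contraction : ∀ (k : ℕ) (f : (Fin (k + 2) → Fin n ⊕ Fin z) → ℚ), f ∈ A (k + 2) →
    (fun J : Fin k → Fin n ⊕ Fin z =>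
      ∑ p, ∑ q, (fromBlocks V.Q 0 0 Z.E)⁻¹ p q * f (Fin.append J ![p, q])) ∈ A k
  /-- the diagonal of `X` -/
  diagonal : (fun J : Fin 2 → Fin n ⊕ Fin z => fromBlocks V.Q 0 0 0 (J 0) (J 1)) ∈ A 2
  /-- Lefschetz theorem on divisor classes of `B × B` -/
  lefschetz : ∀ N : Matrix (Fin z) (Fin z) ℚ,
    IsHodgeClass V Z (fun J : Fin 2 → Fin n ⊕ Fin z => fromBlocks 0 0 0 N (J 0) (J 1)) →
    (fun J : Fin 2 → Fin n ⊕ Fin z => fromBlocks 0 0 0 N (J 0) (J 1)) ∈ A 2

/-- The spin representation of the operator `x` on `V`: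
`(1 / 4c) ∑ (x Q⁻¹)_{ij} γ_i γ_j`. -/
def spin (V : HS n) (γ : Fin n → Matrix (Fin w) (Fin w) ℚ) (c : ℚ)
    (x : Matrix (Fin n) (Fin n) ℂ) : Matrix (Fin w) (Fin w) ℂ :=
  (1 / (4 * (c : ℂ))) • ∑ i, ∑ j, (x * (mC V.Q)⁻¹) i j • (mC (γ i) * mC (γ j))

/-- `W` is the Hodge structure of a Kuga-Satake variety of `V`: the operators `γ_i` satisfy the
relations of the Clifford algebra of the form `c V.Q`, and the Hodge operator of `W` is the image
of the Hodge operator `x` of `V` in the spin representation. -/
structure KugaSatake (V : HS n) (W : HW w) (γ : Fin n → Matrix (Fin w) (Fin w) ℚ) (c : ℚ) :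
    Prop where
  pos : 0 < w
  ne : c ≠ 0
  rel : ∀ i j, γ i * γ j + γ j * γ i = (2 * c * V.Q i j) • (1 : Matrix (Fin w) (Fin w) ℚ)
  hodge : W.y = spin V γ c V.x

/-- The endomorphisms of the Hodge structure `V` are the rational numbers. -/
def EndIsQ (V : HS n) : Prop :=
  ∀ P : Matrix (Fin n) (Fin n) ℚ, mC P * V.x = V.x * mC P →
    ∃ r : ℚ, P = r • (1 : Matrix (Fin n) (Fin n) ℚ)

/-- `W` is a direct summand of `Z`, with inclusion `i` and orthogonal projection `p`. -/
structure IsFactor (W : HW w) (Z : HW z) (i : Matrix (Fin z) (Fin w) ℚ)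
    (p : Matrix (Fin w) (Fin z) ℚ) : Prop where
  one : p * i = 1
  adjoint : iᵀ * Z.E = W.E * p
  hodge : toC i * W.y = Z.y * toC i

/-- The operators of `so(V)`, acting on `V`, on `W` through the spin representation and as zero on
the complement of `W` in `Z`, kill all Hodge classes. -/
def Independent (V : HS n) (Z : HW z) (γ : Fin n → Matrix (Fin w) (Fin w) ℚ) (c : ℚ)
    (i : Matrix (Fin z) (Fin w) ℚ) (p : Matrix (Fin w) (Fin z) ℚ) : Prop :=
  ∀ x : Matrix (Fin n) (Fin n) ℂ, xᵀ * mC V.Q + mC V.Q * x = 0 →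
    ∀ (k : ℕ) (t : (Fin k → Fin n ⊕ Fin z) → ℚ), IsHodgeClass V Z t →
      derivation (fromBlocks x 0 0 (toC i * spin V γ c x * toC p)) (fun J => (t J : ℂ)) = 0

/-- The number of variables in `V`. -/
def numberInV {k : ℕ} (J : Fin k → Fin n ⊕ Fin z) : ℕ :=
  (Finset.univ.filter fun s => (J s).isLeft = true).card

/-- Some class in `A` is not zero and has exactly one variable in `V`; or some class in `A`, with an
odd number of variables in `V` if `4` divides `n`, is not killed by `so(V)`, acting through the
variables in `V` only. -/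
def Linked (V : HS n) (A : ∀ k : ℕ, Submodule ℚ ((Fin k → Fin n ⊕ Fin z) → ℚ)) : Prop :=
  ∃ (m : ℕ) (f : (Fin m → Fin n ⊕ Fin z) → ℚ), f ∈ A m ∧
    ((f ≠ 0 ∧ ∀ J, f J ≠ 0 → numberInV J = 1) ∨
      (n % 4 = 0 → ∀ J, f J ≠ 0 → Odd (numberInV J)) ∧
        ∃ x : Matrix (Fin n) (Fin n) ℂ, xᵀ * mC V.Q + mC V.Q * x = 0 ∧
          derivation (fromBlocks x 0 0 (0 : Matrix (Fin z) (Fin z) ℂ)) (fun J => (f J : ℂ)) ≠ 0)

/-- The pullback of a form on `V ⊕ W` to `V ⊕ Z`. -/
def pullback (p : Matrix (Fin w) (Fin z) ℚ) {k : ℕ} (t : (Fin k → Fin n ⊕ Fin w) → ℚ) :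
    (Fin k → Fin n ⊕ Fin z) → ℚ :=
  fun J => ∑ I : Fin k → Fin n ⊕ Fin w,
    (∏ s, fromBlocks (1 : Matrix (Fin n) (Fin n) ℚ) 0 0 p (I s) (J s)) * t I

/-- The span of the images of `H^1(K)^{⊗ m}` under the classes `f` on `V ⊕ W` in `k + m` variables
whose pullback to `V ⊕ Z` is in `A`. -/
def images (p : Matrix (Fin w) (Fin z) ℚ)
    (A : ∀ k : ℕ, Submodule ℚ ((Fin k → Fin n ⊕ Fin z) → ℚ)) (k m : ℕ) :
    Submodule ℚ ((Fin k → Fin n ⊕ Fin w) → ℚ) :=
  Submodule.span ℚ {g | ∃ f : (Fin (k + m) → Fin n ⊕ Fin w) → ℚ, pullback p f ∈ A (k + m) ∧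
    ∃ I : Fin m → Fin w, g = fun J => f (Fin.append J fun i => Sum.inr (I i))}

/-- **If `X` is linked with an abelian variety, then the sub-Hodge structures of level at most `m`
of the cohomology of `X^a × K^b` in an even number of variables in `V` (all, if one nonzero class in
an odd number of variables in `V` on some `X^a × K^b` is algebraic) are contained in the span of the
images of `H^1(K)^{⊗ m}` under algebraic classes.** -/
theorem result (V : HS n) (W : HW w) (Z : HW z) (hV : (V.x * V.x).trace = 2) (hE : EndIsQ V)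
    (hn : n % 4 ≠ 2) (γ : Fin n → Matrix (Fin w) (Fin w) ℚ) (c : ℚ) (hK : KugaSatake V W γ c)
    (i : Matrix (Fin z) (Fin w) ℚ) (p : Matrix (Fin w) (Fin z) ℚ) (hF : IsFactor W Z i p)
    (hI : i * p = 1 ∨ Independent V Z γ c i p)
    (A : ∀ k : ℕ, Submodule ℚ ((Fin k → Fin n ⊕ Fin z) → ℚ)) (hA : AlgebraicClasses V Z A)
    (hl : Linked V A) (k m : ℕ) (L : Submodule ℚ ((Fin k → Fin n ⊕ Fin w) → ℚ))
    (hL : IsSubHodgeStructure V W L m)
    (he : (∀ t ∈ L, ∀ J, t J ≠ 0 → Even (numberInV J)) ∨
      ∃ (l : ℕ) (s : (Fin l → Fin n ⊕ Fin w) → ℚ), IsHodgeClass V W s ∧ s ≠ 0 ∧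
        (∀ J, s J ≠ 0 → Odd (numberInV J)) ∧ pullback p s ∈ A l) :
    L ≤ images p A k m := by
  have hd : ∀ {m : ℕ} (Y : HW m) {k : ℕ} (t : (Fin k → Fin n ⊕ Fin m) → ℚ),
      Pool.Agent.Y89.KS.IsHodge V Y t ↔ IsHodgeClass V Y t :=
    fun Y k t => ⟨fun h => funext h, fun h J => congrFun h J⟩
  have hCl : Pool.Agent.Y89.KS.Cliff V W γ c := ⟨hK.pos, hK.ne, hK.rel, hK.hodge⟩
  have hf : Pool.Agent.Y89.TX.Fac W Z i p := ⟨hF.one, hF.adjoint, hF.hodge⟩
  have hA' : Pool.Agent.Y89.KS.Cycles V Z A := by
    refine ⟨⟨hA.unit, hA.product, hA.permutation, hA.contraction⟩, fun t ht => ?_, hA.diagonal,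
      fun N hN => hA.lefschetz N ((hd Z _).1 hN)⟩
    rw [Pool.Agent.Y89.TX.lin_zero' hV hE ht]
    exact Submodule.zero_mem _
  have hH : ∀ k : ℕ, ∀ t ∈ A k, Pool.Agent.Y89.KS.IsHodge V Z t :=
    fun k t ht => (hd Z t).2 (hA.hodge k t ht)
  have hI' : Pool.Agent.Y89.TX.Ind V γ c i p A := by
    rcases hI with hip | hI
    · exact fun x hx k t ht =>
        Pool.Agent.Y89.TX.ind_iso hV hE hCl hf hip x hx k t (hH k t ht)
    · exact fun x hx k t ht => hI x hx k t (hA.hodge k t ht)
  have hl' : Pool.Agent.Y89.TX.Linked V A := by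
    obtain ⟨m, f, hfA, h1 | ⟨h1, x, hx, h2⟩⟩ := hl
    · obtain ⟨x, hx, h2⟩ := Pool.Agent.Y89.TX.onevar hV hE h1.1 h1.2
      exact ⟨m, f, x, hfA, fun _ J hJ => by
        have h3 : Pool.Agent.Y89.TU.nV J = 1 := h1.2 J hJ
        rw [h3]; exact odd_one, hx, h2⟩
    · exact ⟨m, f, x, hfA, h1, hx, h2⟩
  have hs : Pool.Agent.W544.PG.cspan L = complexSpan L := by
    unfold Pool.Agent.W544.PG.cspan complexSpan
    congr 1
    ext f
    constructor
    · rintro ⟨t, ht, rfl⟩
      exact ⟨t, ht, rfl⟩
    · rintro ⟨t, ht, rfl⟩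
      exact ⟨t, ht, rfl⟩
  have hL' : Pool.Agent.Y89.KS.SubHodge V W m L :=
    ⟨fun t ht => hs ▸ hL.stable _ (Submodule.subset_span ⟨t, ht, rfl⟩),
      fun f hf hf0 μ hμ => hL.level f (hs ▸ hf) hf0 μ hμ⟩
  rcases he with he | ⟨l, s, hs, hs0, hs1, hsA⟩
  · exact Pool.Agent.Y89.TW.ghc_even hV hE hCl hn hf hA' hH hI' hl' hL' he
  · have hn3 : 3 ≤ n := by
      have h2 := Pool.Agent.Y89.KS.two_le V hV
      omega
    refine (Pool.Agent.Y89.KS.mainD hV hCl hL').trans (Submodule.span_mono ?_)
    rintro g ⟨f, hf', I, rfl⟩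
    exact ⟨f, Pool.Agent.Y89.TX.main_odd hV hE hCl hn3 hf hA' hH hI' hl' hn ((hd W s).2 hs) hsA
      hs0 hs1 hf', I, rfl⟩

end

end Pool.Agent.Results.MP_1c689d_ag.LinkedConiveau
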