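import Mathlib
import Pool.Agent.Y88.GW.Final

/-!
# Grothendieck's coniveau question for quotients of products of abelian varieties and a variety

Let `A` be the product of the powers `A_i ^ (n i)`, `i ∈ ι`, of arbitrary principally polarized abelian
varieties `A_i = ℂ ^ (g i) / (ℤ ^ (g i) + Z i ℤ ^ (g i))` (every abelian variety is isogenous to a
principally polarized one), and let `Z` be a smooth projective variety with cohomology `V`. Let `G` be a
finite group which acts on `Z` and on the powers `A_i ^ (n i)` by rational matrices `ρ s i` of size
`n i`. If all complex irreducible representations of `G` can be defined over `ℚ` (for example for Weyl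
groups, symmetric groups and `(ℤ / 2) ^ r`), then every action of `G` on an abelian variety is of this
form, up to isogenies and translations: the abelian variety is isogenous to the product of
`A_χ ⊗ L_χ`, where `L_χ` are the irreducible rational representations.

Let `Y` be a smooth projective variety which is birational to `(A × Z) / G`. Its holomorphic `i`-forms
are the invariant holomorphic `i`-forms on `A × Z`, and its classes of degree `i` agree with invariant
classes on `A × Z` (`IsQuotClass`) over an open subset.

* The second part of the theorem, for `j = 1`: if `h^(i, 0)(Y) = 0` (`HodgeNumbersZero` for `j = 1`),
  and if every sub-Hodge structure of `H^e(Z)` of level at most `e - 2` is of coniveau at least one,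
  then all classes in `H^i(Y, ℚ)` are of coniveau at least one: the restriction to the complement of a
  divisor is zero, which is Q1 for `Y`. More generally, if the Hodge numbers `h^(p, q)(Y)` with
  `p + q = i`, `|p - q| > i - 2 j` are zero, and if the generalized Hodge conjecture is true for `Z`
  in coniveau at most `j`, then `H^i((A × Z) / G, ℚ)` is of coniveau at least `j`.

* The third part: if the dimension of `Z` is at most two, then no assumption on `Z` is necessary for
  `j = 1`. So Q1 is true for all smooth projective varieties `Y` which are birational to
  `(A × Z) / G` for a surface, a curve or a point `Z`, in all degrees `i`.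

* The first part: let `S` be any sub-Hodge structure of `H^i(A × Z)` of level at most `i - 2 j` which is
  stable under a congruence subgroup of the product of the groups `Sp(2 g i, ℤ)`, the monodromy group
  of the universal family over the moduli space of the `A_i`. Then `S` is of coniveau at least `j`,
  for all (not only the very general) members of the family. This also proves Q1 for the varieties
  `Y` which are birational to quotients `(C_1 × ... × C_m) / G` of products of curves, where `G` acts
  on each curve `C_l` and all representations of `G` can be defined over `ℚ`: the cohomology of degree
  `i` of the quotient is, up to classes supported on divisors, the sum of the invariants of the tensor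
  products of `i` of the groups `H^1(C_l) = H^1(J(C_l))`.

Classes in `divConiveau per N j` are sums of products of `r` divisor classes on `A`, an arbitrary class
on `A` and a class in `N j'` on `Z`, `r + j' ≥ j`, so their coniveau is at least `j`.

The proof. In suitable coordinates let `D_Z` be the Hodge operator of `A` (multiplication by `p - q`).
There is a period matrix `x + i` with algebraically independent real entries `x` such that the Hodge
operator of the corresponding product of abelian varieties `D_gen` has a Hodge Lie algebra which
contains the symplectic Lie algebras of all factors. The operators `D_Z` and `D_gen` are conjugate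
under a product of unipotent elements of the complex symplectic groups. A subspace `S` which is stable
under a congruence subgroup of the product of symplectic groups is stable under these groups (by
polynomial interpolation), so `S` is a Hodge structure of the same level for `D_gen`, and also
for the product of `D_gen` with the Hodge structure of `Z` in both factors separately. By the first
fundamental theorem for the symplectic groups and orthogonal projections, `S` is generated by divisor
classes and classes on `Z` of small level. The divisor classes for `D_gen` are divisor classes for
`D_Z`. The second part follows since the classes of the quotient are a sub-Hodge structure which is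
stable under the symplectic groups.
-/

namespace Pool.Agent.Results.MP_1c689d_ag.QuotientsOfProducts

open Pool.Agent.TH131.GHC Pool.Agent.Y88.GW

/-- Let `A` be the product of the powers `A_i ^ (n i)` of the abelian varieties `A_i` with period
matrices `Z i`, and let `V` be the cohomology of a variety `Z`.

1. If the generalized Hodge conjecture is true for `Z` in coniveau at most `j` (for the filtration `N`),
then every sub-Hodge structure of `H^i(A × Z)` of level at most `i - 2 j` which is stable under a
congruence subgroup of the product of the groups `Sp(2 g i, ℤ)` is of coniveau at least `j`.

2. If moreover a group `G` acts on `Z` and on the powers `A_i ^ (n i)` by matrices of size `n i`, and if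
the Hodge numbers `h^(p, q)` of `(A × Z) / G` with `p + q = i`, `|p - q| > i - 2 j` are zero, then the
cohomology of degree `i` of `(A × Z) / G` is of coniveau at least `j`.

3. If the dimension of `Z` is at most two and `h^(i, 0)((A × Z) / G) = 0` then the cohomology of
degree `i` of `(A × Z) / G` is of coniveau at least one. -/
theorem result {ι : Type} [Fintype ι] [DecidableEq ι] {g n : ι → ℕ}
    (Z : ∀ i, Matrix (Fin (g i)) (Fin (g i)) ℂ) (hZ : ∀ i, IsSiegel (Z i)) {v : ℕ} (V : Coh v)
    (N : ℕ → Submodule ℚ (Fin v → ℚ)) (i j : ℕ) :
    (GHCUpTo V N j → ConiveauOfInvariant Z n V N i j) ∧
    ∀ (G : Type) [Group G] (ρ : G →* (∀ i, Matrix (Fin (n i)) (Fin (n i)) ℚ))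
      (τ : G →* Matrix (Fin v) (Fin v) ℚ), IsHodgeAction V τ →
        (GHCUpTo V N j → HodgeNumbersZero g V ρ τ i j → ConiveauOfQuotient Z V ρ τ N i j) ∧
        ((∀ b, V.dg b ≤ 4) → HodgeNumbersZero g V ρ τ i 1 →
          ConiveauOfQuotient Z V ρ τ (surfaceFiltration V) i 1) :=
  ⟨fun hN => coniveau_invariant hZ V hN, fun _ _ ρ τ hτ =>
    ⟨fun hN hv => coniveau_quotient hZ V hN ρ τ hτ hv,
      fun _ hv => coniveau_quotient hZ V (ghcUpTo_surface V) ρ τ hτ hv⟩⟩

end Pool.Agent.Results.MP_1c689d_ag.QuotientsOfProducts
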